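import Pool.Agent.helper40.SU.SpecC

set_option autoImplicit false

open Finset

namespace Pool.Agent.SU

theorem LRG_sqf (D D' s s' : ℕ) (hD : Squarefree D) (hD' : Squarefree D') (hs : s ≠ 0)
    (hs' : s' ≠ 0) (h : D * s ^ 2 = D' * s' ^ 2) : D = D' := by
  have h0 := hD.ne_zero
  have h0' := hD'.ne_zero
  apply Nat.eq_of_factorization_eq h0 h0'
  intro p
  have h1 : (D * s ^ 2).factorization p = (D' * s' ^ 2).factorization p := by rw [h]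
  rw [Nat.factorization_mul h0 (pow_ne_zero 2 hs), Nat.factorization_mul h0' (pow_ne_zero 2 hs'),
    Nat.factorization_pow, Nat.factorization_pow] at h1
  simp only [Finsupp.coe_add, Finsupp.coe_smul, Pi.add_apply, Pi.smul_apply, smul_eq_mul] at h1
  have h2 := hD.natFactorization_le_one p
  have h3 := hD'.natFactorization_le_one p
  omega

theorem LRG_div (y : ℝ) (hy : 1 ≤ y) : ∀ j : ℕ, y < j → (∀ p : ℕ, p.Prime → p ∣ j → (p : ℝ) ≤ y) →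
    ∃ t : ℕ, t ∣ j ∧ y < t ∧ (t : ℝ) ≤ y ^ 2 := by
  intro j
  induction j using Nat.strong_induction_on with
  | _ j ih =>
    intro hj hp
    by_cases h : (j : ℝ) ≤ y ^ 2
    · exact ⟨j, dvd_refl j, hj, h⟩
    · push Not at h
      have hj1 : j ≠ 1 := by
        rintro rfl
        rw [Nat.cast_one] at hj
        linarith
      have hpr := Nat.minFac_prime hj1
      obtain ⟨m, hm⟩ := Nat.minFac_dvd j
      have hpy := hp _ hpr (Nat.minFac_dvd j)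
      have hp0 : (0 : ℝ) < (j.minFac : ℝ) := by exact_mod_cast hpr.pos
      have hmR : (j : ℝ) = (j.minFac : ℝ) * m := by exact_mod_cast hm
      have hm0 : (0 : ℝ) ≤ (m : ℝ) := Nat.cast_nonneg m
      have hym : y < m := by
        by_contra hc
        push Not at hc
        have : (j : ℝ) ≤ y * y := by
          rw [hmR]
          exact mul_le_mul hpy hc hm0 (by linarith)
        nlinarith
      have hmpos : 0 < m := by
        have : (0 : ℝ) < m := by linarith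
        exact_mod_cast this
      have hmj : m < j := by
        calc m = 1 * m := (one_mul m).symm
          _ < j.minFac * m := Nat.mul_lt_mul_of_pos_right hpr.one_lt hmpos
          _ = j := hm.symm
      obtain ⟨t, ht1, ht2, ht3⟩ := ih m hmj hym (fun p hp1 hp2 => hp p hp1 (by
        rw [hm]
        exact hp2.mul_left _))
      exact ⟨t, by rw [hm]; exact ht1.mul_left _, ht2, ht3⟩

theorem LRG_res (t a M : ℕ) : ((range (M + 1)).filter (fun s => s % t = a)).card ≤ M / t + 1 := by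
  rw [← Finset.card_range (M / t + 1)]
  apply Finset.card_le_card_of_injOn (fun s => s / t)
  · intro s hs
    rw [Finset.mem_coe, Finset.mem_filter, Finset.mem_range] at hs
    rw [Finset.mem_coe, Finset.mem_range]
    have : s / t ≤ M / t := Nat.div_le_div_right (by omega)
    exact Nat.lt_succ_of_le this
  · intro s hs s' hs' h
    rw [Finset.mem_coe, Finset.mem_filter] at hs hs'
    simp only at h
    rw [← Nat.div_add_mod s t, ← Nat.div_add_mod s' t, hs.2, hs'.2, h]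

/-- pairs with residues in `Cst` -/
def LRG_A (M t D D' : ℕ) : Finset (ℕ × ℕ) :=
  (range (M + 1) ×ˢ range (M + 1)).filter (fun x => (x.1 % t, x.2 % t) ∈ Cst t D D')

/-- pairs of multiples of `p` -/
def LRG_B (M p : ℕ) : Finset (ℕ × ℕ) :=
  ((Ioc 0 M).filter (fun x => p ∣ x)) ×ˢ ((Ioc 0 M).filter (fun x => p ∣ x))

theorem LRG_Acard (M t D D' : ℕ) :
    (LRG_A M t D D').card ≤ (Cst t D D').card * ((M / t + 1) * (M / t + 1)) := by
  have h1 : LRG_A M t D D' ⊆ (Cst t D D').biUnion (fun c =>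
      ((range (M + 1)).filter (fun s => s % t = c.1)) ×ˢ
        ((range (M + 1)).filter (fun s => s % t = c.2))) := by
    intro x hx
    unfold LRG_A at hx
    rw [Finset.mem_filter, Finset.mem_product] at hx
    rw [Finset.mem_biUnion]
    refine ⟨_, hx.2, ?_⟩
    rw [Finset.mem_product, Finset.mem_filter, Finset.mem_filter]
    exact ⟨⟨hx.1.1, rfl⟩, ⟨hx.1.2, rfl⟩⟩
  calc (LRG_A M t D D').card ≤ _ := Finset.card_le_card h1
    _ ≤ ∑ c ∈ Cst t D D', (((range (M + 1)).filter (fun s => s % t = c.1)) ×ˢ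
        ((range (M + 1)).filter (fun s => s % t = c.2))).card := Finset.card_biUnion_le
    _ ≤ ∑ _c ∈ Cst t D D', ((M / t + 1) * (M / t + 1)) := by
        apply Finset.sum_le_sum
        intro c _
        rw [Finset.card_product]
        exact Nat.mul_le_mul (LRG_res t c.1 M) (LRG_res t c.2 M)
    _ = _ := by rw [Finset.sum_const, smul_eq_mul]

theorem LRG_Bcard (M p : ℕ) : (LRG_B M p).card = (M / p) * (M / p) := by
  unfold LRG_B
  rw [Finset.card_product, Nat.Ioc_filter_dvd_card_eq_div]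

/-- reduction of the residues -/
theorem LRG_red (D D' s s' j t : ℕ) (ht0 : 0 < t) (htj : t ∣ j)
    (hj : (j : ℤ) ∣ (D : ℤ) * (s : ℤ) ^ 2 - (D' : ℤ) * (s' : ℤ) ^ 2)
    (hp : ∀ p : ℕ, p.Prime → p ∣ j → p ∣ D * s) : (s % t, s' % t) ∈ Cst t D D' := by
  unfold Cst
  rw [Finset.mem_filter, Finset.mem_product, Finset.mem_range, Finset.mem_range]
  refine ⟨⟨Nat.mod_lt _ ht0, Nat.mod_lt _ ht0⟩, ?_, ?_⟩
  · have h1 : (t : ℤ) ∣ (D : ℤ) * (s : ℤ) ^ 2 - (D' : ℤ) * (s' : ℤ) ^ 2 :=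
      (Int.natCast_dvd_natCast.mpr htj).trans hj
    obtain ⟨c, hc⟩ := h1
    have ha : (s : ℤ) = t * ((s / t : ℕ) : ℤ) + ((s % t : ℕ) : ℤ) := by
      exact_mod_cast (Nat.div_add_mod s t).symm
    have hb : (s' : ℤ) = t * ((s' / t : ℕ) : ℤ) + ((s' % t : ℕ) : ℤ) := by
      exact_mod_cast (Nat.div_add_mod s' t).symm
    generalize ((s / t : ℕ) : ℤ) = a at ha
    generalize ((s' / t : ℕ) : ℤ) = b at hb
    show (t : ℤ) ∣ (D : ℤ) * ((s % t : ℕ) : ℤ) ^ 2 - (D' : ℤ) * ((s' % t : ℕ) : ℤ) ^ 2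
    generalize ((s % t : ℕ) : ℤ) = r at *
    generalize ((s' % t : ℕ) : ℤ) = r' at *
    exact ⟨c - D * a * (s + r) + D' * b * (s' + r'), by
      linear_combination hc - (D : ℤ) * (s + r) * ha + (D' : ℤ) * (s' + r') * hb⟩
  · intro p hpt
    have hpp := Nat.prime_of_mem_primeFactors hpt
    have hpd := Nat.dvd_of_mem_primeFactors hpt
    have h1 := hp p hpp (hpd.trans htj)
    show p ∣ D * (s % t)
    have h2 : D * s = D * (t * (s / t)) + D * (s % t) := by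
      rw [← mul_add, Nat.div_add_mod]
    rw [h2] at h1
    exact (Nat.dvd_add_right ((hpd.mul_right _).mul_left _)).mp h1

theorem LRG_sW (q s₀ D s : ℕ) (T δ : ℝ) (hT : 1 ≤ T) (hδ : 0 < δ) (hδ1 : δ ≤ 1)
    (h : s ∈ sW q s₀ T δ D) : 1 ≤ s ∧ s ≤ ⌊2 * T⌋₊ ∧ (D : ℝ) * (s : ℝ) ^ 2 ≤ 4 * T ^ 2 := by
  unfold sW at h
  rw [Finset.mem_filter, Finset.mem_range] at h
  obtain ⟨h1, -, h2, h3⟩ := h
  refine ⟨?_, by omega, ?_⟩
  · by_contra hc
    have : s = 0 := by omega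
    subst this
    rw [Nat.cast_zero, mul_zero] at h2
    linarith
  · have h4 : √(D : ℝ) * s ≤ 2 * T := by
      have : (1 + δ ^ 2) * T ≤ 2 * T := by
        apply mul_le_mul_of_nonneg_right _ (by linarith)
        nlinarith
      linarith
    have h5 : 0 ≤ √(D : ℝ) * s := by positivity
    calc (D : ℝ) * (s : ℝ) ^ 2 = (√(D : ℝ) * s) ^ 2 := by
          rw [mul_pow, Real.sq_sqrt (Nat.cast_nonneg D)]
      _ ≤ (2 * T) ^ 2 := pow_le_pow_left₀ h5 h4 2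
      _ = 4 * T ^ 2 := by ring

theorem LRG_wW (q w₀ f : ℕ) (T δ : ℝ) (hT : 1 ≤ T) (hw : w₀.Coprime (2 * q))
    (h : f ∈ wW q w₀ T δ) : 1 ≤ f ∧ f ≤ ⌊2 * T⌋₊ ∧ f.Coprime (2 * q) := by
  unfold wW at h
  rw [Finset.mem_filter, Finset.mem_range] at h
  obtain ⟨h1, h2, h3, -⟩ := h
  refine ⟨?_, by omega, ?_⟩
  · have : (0 : ℝ) < f := by linarith
    exact_mod_cast this
  · have h4 : f ≡ w₀ [MOD 2 * q] := h2.of_dvd ⟨2, by ring⟩
    have h5 := h4.gcd_eq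
    unfold Nat.Coprime at hw ⊢
    rw [h5, hw]

/-- the number of the divisors -/
theorem LRG_fib (q s₀ w₀ D D' : ℕ) (T δ θ : ℝ) (hT : 1 ≤ T) (hδ : 0 < δ) (hδ1 : δ ≤ 1)
    (hw : w₀.Coprime (2 * q)) (hD : Squarefree D) (hD' : Squarefree D') (hne : D ≠ D')
    (hθ : 0 ≤ θ) (htau : ∀ N : ℕ, 1 ≤ N →
      ((N.divisors.filter (fun f => f.Coprime (2 * q))).card : ℝ) ≤ (N : ℝ) ^ θ)
    (F : Finset (ℕ × ℕ × ℕ)) (hF : F ⊆ PP q s₀ w₀ T δ D D') (b : ℕ × ℕ) :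
    ((F.filter (fun x => (x.1, x.2.1) = b)).card : ℝ) ≤ (4 * T ^ 2) ^ θ := by
  have hpos : 0 ≤ (4 * T ^ 2) ^ θ := by positivity
  rcases (F.filter (fun x => (x.1, x.2.1) = b)).eq_empty_or_nonempty with h0 | ⟨x, hx⟩
  · rw [h0, Finset.card_empty, Nat.cast_zero]
    exact hpos
  · have hx' := hF (Finset.mem_filter.mp hx).1
    have hxb := (Finset.mem_filter.mp hx).2
    unfold PP at hx'
    rw [Finset.mem_filter, Finset.mem_product, Finset.mem_product] at hx'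
    obtain ⟨⟨a1, a2, a3⟩, a4⟩ := hx'
    obtain ⟨b1, b2, b3⟩ := LRG_sW q s₀ D x.1 T δ hT hδ hδ1 a1
    obtain ⟨c1, c2, c3⟩ := LRG_sW q s₀ D' x.2.1 T δ hT hδ hδ1 a2
    have e1 : x.1 = b.1 := by rw [← hxb]
    have e2 : x.2.1 = b.2 := by rw [← hxb]
    rw [e1] at b1 b3
    rw [e2] at c1 c3
    obtain ⟨N, hN⟩ : ∃ N : ℕ, N = ((D : ℤ) * (b.1 : ℤ) ^ 2 - (D' : ℤ) * (b.2 : ℤ) ^ 2).natAbs :=
      ⟨_, rfl⟩
    have hN1 : 1 ≤ N := by
      rw [Nat.one_le_iff_ne_zero, hN]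
      intro h
      rw [Int.natAbs_eq_zero, sub_eq_zero] at h
      have h' : D * b.1 ^ 2 = D' * b.2 ^ 2 := by exact_mod_cast h
      exact hne (LRG_sqf D D' b.1 b.2 hD hD' (by omega) (by omega) h')
    have hNT : (N : ℝ) ≤ 4 * T ^ 2 := by
      rw [hN, Nat.cast_natAbs]
      push_cast
      have d1 : (0 : ℝ) ≤ (D : ℝ) * (b.1 : ℝ) ^ 2 := by positivity
      have d2 : (0 : ℝ) ≤ (D' : ℝ) * (b.2 : ℝ) ^ 2 := by positivity
      rw [abs_le]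
      constructor
      · linarith
      · linarith
    have hsub : ((F.filter (fun x => (x.1, x.2.1) = b)).card) ≤
        (N.divisors.filter (fun f => f.Coprime (2 * q))).card := by
      apply Finset.card_le_card_of_injOn (fun x => x.2.2)
      · intro z hz
        rw [Finset.mem_coe] at hz
        have hz' := hF (Finset.mem_filter.mp hz).1
        have hzb := (Finset.mem_filter.mp hz).2
        unfold PP at hz'
        rw [Finset.mem_filter, Finset.mem_product, Finset.mem_product] at hz'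
        obtain ⟨⟨-, -, z3⟩, z4⟩ := hz'
        have f1 : z.1 = b.1 := by rw [← hzb]
        have f2 : z.2.1 = b.2 := by rw [← hzb]
        rw [f1, f2, Int.natCast_dvd, ← hN] at z4
        rw [Finset.mem_coe, Finset.mem_filter, Nat.mem_divisors]
        exact ⟨⟨z4, by omega⟩, (LRG_wW q w₀ z.2.2 T δ hT hw z3).2.2⟩
      · intro z hz z' hz' h
        rw [Finset.mem_coe] at hz hz'
        have hzb := (Finset.mem_filter.mp hz).2
        have hzb' := (Finset.mem_filter.mp hz').2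
        have h1 : (z.1, z.2.1) = (z'.1, z'.2.1) := by rw [hzb, hzb']
        rw [Prod.mk.injEq] at h1
        exact Prod.ext h1.1 (Prod.ext h1.2 h)
    calc ((F.filter (fun x => (x.1, x.2.1) = b)).card : ℝ)
        ≤ ((N.divisors.filter (fun f => f.Coprime (2 * q))).card : ℝ) := by exact_mod_cast hsub
      _ ≤ (N : ℝ) ^ θ := htau N hN1
      _ ≤ (4 * T ^ 2) ^ θ := Real.rpow_le_rpow (Nat.cast_nonneg N) hNT hθ

/-- the pairs -/
theorem LRG_cov (hIRR : IRR_stmt) (q s₀ w₀ D D' : ℕ) (T δ y : ℝ) (hT : 1 ≤ T) (hδ : 0 < δ)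
    (hδ1 : δ ≤ 1) (hw : w₀.Coprime (2 * q)) (hD : Squarefree D) (hD' : Squarefree D')
    (hy : 1 ≤ y) (hyD : (D : ℝ) < y) (hyD' : (D' : ℝ) < y) (hyT : y ^ 2 ≤ T)
    (X : ℝ) (hX : y ≤ X) :
    ((PP q s₀ w₀ T δ D D').filter (fun x => X < (irr D x.1 x.2.2 : ℝ))).image
        (fun x => (x.1, x.2.1)) ⊆
      (((cop q ⌊2 * T⌋₊).filter (fun t => t ≠ 1)).filter (fun t : ℕ => y < t ∧ (t : ℝ) ≤ y ^ 2)).biUnion
        (fun t => LRG_A ⌊2 * T⌋₊ t D D') ∪ (Ioc ⌊y⌋₊ ⌊2 * T⌋₊).biUnion (LRG_B ⌊2 * T⌋₊) := by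
  intro b hb
  rw [Finset.mem_image] at hb
  obtain ⟨x, hx, hxb⟩ := hb
  rw [Finset.mem_filter] at hx
  obtain ⟨hxP, hxX⟩ := hx
  unfold PP at hxP
  rw [Finset.mem_filter, Finset.mem_product, Finset.mem_product] at hxP
  obtain ⟨⟨a1, a2, a3⟩, a4⟩ := hxP
  obtain ⟨b1, b2, -⟩ := LRG_sW q s₀ D x.1 T δ hT hδ hδ1 a1
  obtain ⟨c1, c2, -⟩ := LRG_sW q s₀ D' x.2.1 T δ hT hδ hδ1 a2
  obtain ⟨f1, f2, f3⟩ := LRG_wW q w₀ x.2.2 T δ hT hw a3
  obtain ⟨h, i1, -, -, -, i5, -⟩ := hIRR D D' x.1 x.2.1 x.2.2 f1 a4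
  obtain ⟨j, hj⟩ : ∃ j : ℕ, j = irr D x.1 x.2.2 := ⟨_, rfl⟩
  rw [← hj] at i1 i5 hxX
  have hjf : j ∣ x.2.2 := ⟨h, i1⟩
  have hj0 : 0 < j := Nat.pos_of_dvd_of_pos hjf f1
  have hjc : j.Coprime (2 * q) := Nat.Coprime.coprime_dvd_left hjf f3
  have hjN : (j : ℤ) ∣ (D : ℤ) * (x.1 : ℤ) ^ 2 - (D' : ℤ) * (x.2.1 : ℤ) ^ 2 :=
    (Int.natCast_dvd_natCast.mpr hjf).trans a4
  have hjp : ∀ p : ℕ, p.Prime → p ∣ j → p ∣ D * x.1 := by
    intro p hp hpj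
    unfold Cst at i5
    rw [Finset.mem_filter] at i5
    have h1 := i5.2.2 p (Nat.mem_primeFactors.mpr ⟨hp, hpj, by omega⟩)
    have h2 : D * x.1 = D * (j * (x.1 / j)) + D * (x.1 % j) := by
      rw [← mul_add, Nat.div_add_mod]
    rw [h2]
    exact dvd_add ((hpj.mul_right _).mul_left _) h1
  rw [← hxb, Finset.mem_union, Finset.mem_biUnion, Finset.mem_biUnion]
  by_cases hsm : ∀ p : ℕ, p.Prime → p ∣ j → (p : ℝ) ≤ y
  · left
    obtain ⟨t, ht1, ht2, ht3⟩ := LRG_div y hy j (by linarith) hsm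
    have ht0 : 0 < t := Nat.pos_of_dvd_of_pos ht1 hj0
    refine ⟨t, ?_, ?_⟩
    · rw [Finset.mem_filter, Finset.mem_filter]
      refine ⟨⟨?_, ?_⟩, ht2, ht3⟩
      · unfold cop
        rw [Finset.mem_filter, Finset.mem_Icc]
        refine ⟨⟨ht0, ?_⟩, Nat.Coprime.coprime_dvd_left ht1 hjc⟩
        apply Nat.le_floor
        linarith
      · rintro rfl
        rw [Nat.cast_one] at ht2
        linarith
    · unfold LRG_A
      rw [Finset.mem_filter, Finset.mem_product, Finset.mem_range, Finset.mem_range]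
      refine ⟨⟨by simp only; omega, by simp only; omega⟩, ?_⟩
      exact LRG_red D D' x.1 x.2.1 j t ht0 ht1 hjN hjp
  · right
    push Not at hsm
    obtain ⟨p, hp, hpj, hpy⟩ := hsm
    have hpf : p ≤ x.2.2 := Nat.le_of_dvd f1 (hpj.trans hjf)
    have hn1 : ¬ p ∣ D := fun h' => by
      have h1 := Nat.le_of_dvd (Nat.pos_of_ne_zero hD.ne_zero) h'
      have h2 : (p : ℝ) ≤ D := by exact_mod_cast h1
      linarith
    have hn2 : ¬ p ∣ D' := fun h' => by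
      have h1 := Nat.le_of_dvd (Nat.pos_of_ne_zero hD'.ne_zero) h'
      have h2 : (p : ℝ) ≤ D' := by exact_mod_cast h1
      linarith
    have hps : p ∣ x.1 := by
      rcases (Nat.Prime.dvd_mul hp).mp (hjp p hp hpj) with h' | h'
      · exact absurd h' hn1
      · exact h'
    have hps' : p ∣ x.2.1 := by
      have h1 : (p : ℤ) ∣ (D : ℤ) * (x.1 : ℤ) ^ 2 - (D' : ℤ) * (x.2.1 : ℤ) ^ 2 :=
        (Int.natCast_dvd_natCast.mpr hpj).trans hjN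
      have h2 : (p : ℤ) ∣ (D : ℤ) * (x.1 : ℤ) ^ 2 :=
        ((Int.natCast_dvd_natCast.mpr hps).pow two_ne_zero |>.mul_left _)
      have h3 : (p : ℤ) ∣ (D' : ℤ) * (x.2.1 : ℤ) ^ 2 := (dvd_sub_right h2).mp h1
      have h4 : p ∣ D' * x.2.1 ^ 2 := by exact_mod_cast h3
      rcases (Nat.Prime.dvd_mul hp).mp h4 with h' | h'
      · exact absurd h' hn2
      · exact hp.dvd_of_dvd_pow h'
    refine ⟨p, ?_, ?_⟩
    · rw [Finset.mem_Ioc]
      refine ⟨?_, hpf.trans f2⟩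
      exact (Nat.floor_lt (by linarith)).mpr hpy
    · unfold LRG_B
      rw [Finset.mem_product, Finset.mem_filter, Finset.mem_filter, Finset.mem_Ioc, Finset.mem_Ioc]
      exact ⟨⟨⟨b1, b2⟩, hps⟩, ⟨⟨c1, c2⟩, hps'⟩⟩

theorem LRG_wj (t : ℕ) : 0 ≤ wj t := by
  unfold wj
  apply div_nonneg (by positivity)
  exact mul_nonneg (Finset.prod_nonneg (fun _ _ => Nat.cast_nonneg _)) (Real.sqrt_nonneg _)

theorem LRG_gw (D t : ℕ) (R : ℝ) (hD : D ≠ 0) (hR : (D : ℝ) ≤ R) :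
    0 ≤ gw D t ∧ gw D t ≤ R ^ (3 / 4 : ℝ) := by
  unfold gw
  constructor
  · positivity
  · apply Real.rpow_le_rpow (Nat.cast_nonneg _) _ (by norm_num)
    have h1 : D.gcd t ≤ D := Nat.gcd_le_left t (Nat.pos_of_ne_zero hD)
    have h2 : ((D.gcd t : ℕ) : ℝ) ≤ D := by exact_mod_cast h1
    exact h2.trans hR

theorem LRG_At (hCJB : CJB_stmt) (t D D' : ℕ) (T R : ℝ) (ht0 : 0 < t) (ht : (t : ℝ) ≤ T)
    (hodd : Odd t) (hD : Squarefree D) (hD' : Squarefree D') (hR : (D : ℝ) ≤ R)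
    (hR' : (D' : ℝ) ≤ R) :
    ((LRG_A ⌊2 * T⌋₊ t D D').card : ℝ) ≤ 9 * T ^ 2 * (R ^ (3 / 4 : ℝ) * R ^ (3 / 4 : ℝ)) * wj t := by
  have ht0' : (0 : ℝ) < t := by exact_mod_cast ht0
  have hT : 0 ≤ T := by linarith
  have h1 : ((LRG_A ⌊2 * T⌋₊ t D D').card : ℝ) ≤
      ((Cst t D D').card : ℝ) * (((⌊2 * T⌋₊ / t : ℕ) : ℝ) + 1) ^ 2 := by
    have := LRG_Acard ⌊2 * T⌋₊ t D D'
    have h' : ((LRG_A ⌊2 * T⌋₊ t D D').card : ℝ) ≤
        (((Cst t D D').card * ((⌊2 * T⌋₊ / t + 1) * (⌊2 * T⌋₊ / t + 1)) : ℕ) : ℝ) := by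
      exact_mod_cast this
    push_cast at h'
    rw [pow_two]
    exact h'
  have h2 : ((⌊2 * T⌋₊ / t : ℕ) : ℝ) + 1 ≤ 3 * T / t := by
    have a1 : ((⌊2 * T⌋₊ / t : ℕ) : ℝ) ≤ (⌊2 * T⌋₊ : ℝ) / t := Nat.cast_div_le
    have a2 : (⌊2 * T⌋₊ : ℝ) / t ≤ 2 * T / t := by
      apply div_le_div_of_nonneg_right _ ht0'.le
      exact Nat.floor_le (by linarith)
    have a3 : 1 ≤ T / t := by
      rw [le_div_iff₀ ht0']
      linarith
    have a4 : 3 * T / t = 2 * T / t + T / t := by ring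
    linarith
  have h3 := hCJB t D D' hodd hD hD'
  obtain ⟨g1, g2⟩ := LRG_gw D t R hD.ne_zero hR
  obtain ⟨g1', g2'⟩ := LRG_gw D' t R hD'.ne_zero hR'
  have hw := LRG_wj t
  have h4 : (0 : ℝ) ≤ ((⌊2 * T⌋₊ / t : ℕ) : ℝ) + 1 := by positivity
  calc ((LRG_A ⌊2 * T⌋₊ t D D').card : ℝ)
      ≤ ((Cst t D D').card : ℝ) * (((⌊2 * T⌋₊ / t : ℕ) : ℝ) + 1) ^ 2 := h1
    _ ≤ ((t : ℝ) ^ 2 * wj t * gw D t * gw D' t) * (3 * T / t) ^ 2 := by
        apply mul_le_mul h3 (pow_le_pow_left₀ h4 h2 2) (by positivity)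
        exact mul_nonneg (mul_nonneg (mul_nonneg (by positivity) hw) g1) g1'
    _ = 9 * T ^ 2 * (gw D t * gw D' t) * wj t := by
        field_simp
        ring
    _ ≤ 9 * T ^ 2 * (R ^ (3 / 4 : ℝ) * R ^ (3 / 4 : ℝ)) * wj t := by
        apply mul_le_mul_of_nonneg_right _ hw
        apply mul_le_mul_of_nonneg_left _ (by positivity)
        exact mul_le_mul g2 g2' g1' (g1.trans g2)

theorem LRG_Bs (T y : ℝ) (hy : 1 ≤ y) (hyT : y ≤ T) :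
    ∑ p ∈ Ioc ⌊y⌋₊ ⌊2 * T⌋₊, ((LRG_B ⌊2 * T⌋₊ p).card : ℝ) ≤ 8 * T ^ 2 / y := by
  have hT : 0 < T := by linarith
  have hfl : 1 ≤ ⌊y⌋₊ := (Nat.one_le_floor_iff y).mpr hy
  have hfl2 : y / 2 ≤ (⌊y⌋₊ : ℝ) := by
    have h1 := Nat.lt_floor_add_one y
    have h2 : (1 : ℝ) ≤ (⌊y⌋₊ : ℝ) := by exact_mod_cast hfl
    linarith
  have h1 : ∀ p ∈ Ioc ⌊y⌋₊ ⌊2 * T⌋₊, ((LRG_B ⌊2 * T⌋₊ p).card : ℝ) ≤
      4 * T ^ 2 * ((p : ℝ) ^ 2)⁻¹ := by
    intro p hp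
    rw [Finset.mem_Ioc] at hp
    have hp0 : (0 : ℝ) < p := by
      have : 0 < p := by omega
      exact_mod_cast this
    rw [LRG_Bcard]
    push_cast
    have a1 : ((⌊2 * T⌋₊ / p : ℕ) : ℝ) ≤ (⌊2 * T⌋₊ : ℝ) / p := Nat.cast_div_le
    have a2 : (⌊2 * T⌋₊ : ℝ) / p ≤ 2 * T / p := by
      apply div_le_div_of_nonneg_right _ hp0.le
      exact Nat.floor_le (by linarith)
    have a3 : (0 : ℝ) ≤ ((⌊2 * T⌋₊ / p : ℕ) : ℝ) := Nat.cast_nonneg _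
    calc ((⌊2 * T⌋₊ / p : ℕ) : ℝ) * ((⌊2 * T⌋₊ / p : ℕ) : ℝ) ≤ (2 * T / p) * (2 * T / p) :=
          mul_le_mul (a1.trans a2) (a1.trans a2) a3 (by positivity)
      _ = 4 * T ^ 2 * ((p : ℝ) ^ 2)⁻¹ := by
          field_simp
          ring
  have h2 : ∑ p ∈ Ioc ⌊y⌋₊ ⌊2 * T⌋₊, ((p : ℝ) ^ 2)⁻¹ ≤ 2 / y := by
    have h3 : ⌊y⌋₊ ≤ ⌊2 * T⌋₊ := Nat.floor_le_floor (by linarith)
    have h4 := sum_Ioc_inv_sq_le_sub (α := ℝ) (k := ⌊y⌋₊) (n := ⌊2 * T⌋₊) (by omega) h3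
    have h5 : (0 : ℝ) ≤ ((⌊2 * T⌋₊ : ℕ) : ℝ)⁻¹ := by positivity
    have h6 : ((⌊y⌋₊ : ℕ) : ℝ)⁻¹ ≤ (y / 2)⁻¹ := inv_anti₀ (by linarith) hfl2
    have h7 : (y / 2)⁻¹ = 2 / y := by
      rw [inv_div]
    linarith
  calc ∑ p ∈ Ioc ⌊y⌋₊ ⌊2 * T⌋₊, ((LRG_B ⌊2 * T⌋₊ p).card : ℝ)
      ≤ ∑ p ∈ Ioc ⌊y⌋₊ ⌊2 * T⌋₊, 4 * T ^ 2 * ((p : ℝ) ^ 2)⁻¹ := Finset.sum_le_sum h1
    _ = 4 * T ^ 2 * ∑ p ∈ Ioc ⌊y⌋₊ ⌊2 * T⌋₊, ((p : ℝ) ^ 2)⁻¹ := by rw [Finset.mul_sum]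
    _ ≤ 4 * T ^ 2 * (2 / y) := mul_le_mul_of_nonneg_left h2 (by positivity)
    _ = 8 * T ^ 2 / y := by ring

theorem LRG_As (hCJB : CJB_stmt) (q D D' : ℕ) (T R y W : ℝ) (hy : 1 ≤ y)
    (hyT : y ^ 2 ≤ T) (hD : Squarefree D) (hD' : Squarefree D') (hR : (D : ℝ) ≤ R)
    (hR' : (D' : ℝ) ≤ R)
    (hW : ∑ j ∈ (cop q ⌊2 * T⌋₊).filter (fun j => j ≠ 1), wj j * 5 ^ (om j) * (j : ℝ) ^ (1 / 10 : ℝ)
      ≤ W) :
    ∑ t ∈ ((cop q ⌊2 * T⌋₊).filter (fun t => t ≠ 1)).filter (fun t : ℕ => y < t ∧ (t : ℝ) ≤ y ^ 2),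
      ((LRG_A ⌊2 * T⌋₊ t D D').card : ℝ) ≤
      9 * T ^ 2 * (R ^ (3 / 4 : ℝ) * R ^ (3 / 4 : ℝ)) * (W / y ^ (1 / 10 : ℝ)) := by
  have hR0 : 0 ≤ R := (Nat.cast_nonneg D).trans hR
  have hyp : 0 < y ^ (1 / 10 : ℝ) := Real.rpow_pos_of_pos (by linarith) _
  have h1 : ∀ t ∈ ((cop q ⌊2 * T⌋₊).filter (fun t => t ≠ 1)).filter
      (fun t : ℕ => y < t ∧ (t : ℝ) ≤ y ^ 2),
      ((LRG_A ⌊2 * T⌋₊ t D D').card : ℝ) ≤ 9 * T ^ 2 * (R ^ (3 / 4 : ℝ) * R ^ (3 / 4 : ℝ)) *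
        (wj t * 5 ^ (om t) * (t : ℝ) ^ (1 / 10 : ℝ) / y ^ (1 / 10 : ℝ)) := by
    intro t ht
    rw [Finset.mem_filter, Finset.mem_filter] at ht
    obtain ⟨⟨ht1, ht2⟩, ht3, ht4⟩ := ht
    unfold cop at ht1
    rw [Finset.mem_filter, Finset.mem_Icc] at ht1
    have hodd : Odd t := by
      rw [← Nat.coprime_two_right]
      exact Nat.Coprime.coprime_dvd_right (dvd_mul_right 2 q) ht1.2
    have h2 := LRG_At hCJB t D D' T R (by omega) (ht4.trans hyT) hodd hD hD' hR hR'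
    apply h2.trans
    apply mul_le_mul_of_nonneg_left _ (by positivity)
    rw [le_div_iff₀ hyp]
    have h3 : y ^ (1 / 10 : ℝ) ≤ (t : ℝ) ^ (1 / 10 : ℝ) :=
      Real.rpow_le_rpow (by linarith) ht3.le (by norm_num)
    have h4 : (1 : ℝ) ≤ 5 ^ (om t) := one_le_pow₀ (by norm_num)
    have hw := LRG_wj t
    calc wj t * y ^ (1 / 10 : ℝ) ≤ wj t * (t : ℝ) ^ (1 / 10 : ℝ) :=
          mul_le_mul_of_nonneg_left h3 hw
      _ = wj t * 1 * (t : ℝ) ^ (1 / 10 : ℝ) := by ring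
      _ ≤ wj t * 5 ^ (om t) * (t : ℝ) ^ (1 / 10 : ℝ) := by
          apply mul_le_mul_of_nonneg_right _ (by positivity)
          exact mul_le_mul_of_nonneg_left h4 hw
  apply (Finset.sum_le_sum h1).trans
  rw [← Finset.mul_sum, ← Finset.sum_div]
  apply mul_le_mul_of_nonneg_left _ (by positivity)
  apply div_le_div_of_nonneg_right _ hyp.le
  apply le_trans _ hW
  apply Finset.sum_le_sum_of_subset_of_nonneg (Finset.filter_subset _ _)
  intro t _ _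
  exact mul_nonneg (mul_nonneg (LRG_wj t) (by positivity)) (by positivity)

theorem LRG (hTAU : TAU_stmt) (hWSM : WSM_stmt) (hCJB : CJB_stmt) (hIRR : IRR_stmt) :
    LRG_stmt := by
  obtain ⟨Z₁, hZ₁⟩ := hTAU (1 / 100000) (by norm_num)
  obtain ⟨Z₂, hZ₂⟩ := hWSM
  refine ⟨max 1 (max Z₁ Z₂), ?_⟩
  intro Z hZ q _ hSm
  have hZ1 : 1 ≤ Z := (le_max_left _ _).trans hZ
  have hZa : Z₁ ≤ Z := (le_max_left _ _).trans ((le_max_right _ _).trans hZ)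
  have hZb : Z₂ ≤ Z := (le_max_right _ _).trans ((le_max_right _ _).trans hZ)
  have htau := (hZ₁ Z hZa q hSm).2
  have hwsm := hZ₂ Z hZb q hSm
  refine ⟨max 2 ((34 : ℝ) ^ (1 / (18 / 100000) : ℝ)), ?_⟩
  intro T hT δ s₀ w₀ D D' hδ hδ1 hw hD hD' hne hDT hDT'
  have hT2 : 2 ≤ T := (le_max_left _ _).trans hT
  have hT34 : (34 : ℝ) ^ (1 / (18 / 100000) : ℝ) ≤ T := (le_max_right _ _).trans hT
  have hT1 : 1 ≤ T := by linarith
  have hT0 : 0 < T := by linarith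
  have h34 : (34 : ℝ) ≤ T ^ (18 / 100000 : ℝ) := by
    calc (34 : ℝ) = ((34 : ℝ) ^ (1 / (18 / 100000) : ℝ)) ^ (18 / 100000 : ℝ) := by
          rw [← Real.rpow_mul (by norm_num)]
          norm_num
      _ ≤ T ^ (18 / 100000 : ℝ) := Real.rpow_le_rpow (by positivity) hT34 (by norm_num)
  obtain ⟨y, hyd⟩ : ∃ y : ℝ, y = T ^ (1 / 100 : ℝ) := ⟨_, rfl⟩
  have hy1 : 1 ≤ y := by
    rw [hyd]
    exact Real.one_le_rpow hT1 (by norm_num)
  have hlt : T ^ (1 / 5000 : ℝ) < y := by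
    rw [hyd]
    exact Real.rpow_lt_rpow_of_exponent_lt (by linarith) (by norm_num)
  have hy2 : y ^ 2 ≤ T := by
    rw [hyd, ← Real.rpow_natCast, ← Real.rpow_mul hT0.le]
    calc T ^ ((1 / 100 : ℝ) * ((2 : ℕ) : ℝ)) ≤ T ^ (1 : ℝ) :=
          Real.rpow_le_rpow_of_exponent_le hT1 (by norm_num)
      _ = T := Real.rpow_one T
  have hyT : y ≤ T := by nlinarith
  have hyX : y ≤ T ^ (1 / 16 : ℝ) := by
    rw [hyd]
    exact Real.rpow_le_rpow_of_exponent_le hT1 (by norm_num)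
  obtain ⟨F, hF⟩ : ∃ F : Finset (ℕ × ℕ × ℕ), F = (PP q s₀ w₀ T δ D D').filter
      (fun x => T ^ (1 / 16 : ℝ) < (irr D x.1 x.2.2 : ℝ)) := ⟨_, rfl⟩
  have hFsub : F ⊆ PP q s₀ w₀ T δ D D' := by
    rw [hF]
    exact Finset.filter_subset _ _
  rw [← hF]
  -- the pairs
  have hcov := LRG_cov hIRR q s₀ w₀ D D' T δ y hT1 hδ hδ1 hw hD hD' hy1 (by linarith) (by linarith)
    hy2 (T ^ (1 / 16 : ℝ)) hyX
  rw [← hF] at hcov
  have hZr : (Z : ℝ) ^ (-(1 / 4) : ℝ) ≤ 1 := by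
    apply Real.rpow_le_one_of_one_le_of_nonpos
    · exact_mod_cast hZ1
    · norm_num
  have hWs := (hwsm ⌊2 * T⌋₊).trans hZr
  have hAs := LRG_As hCJB q D D' T (T ^ (1 / 5000 : ℝ)) y 1 hy1 hy2 hD hD' hDT hDT' hWs
  have hBs := LRG_Bs T y hy1 hyT
  have hpairs : ((F.image (fun x => (x.1, x.2.1))).card : ℝ) ≤ 17 * T ^ (2 - 7 / 10000 : ℝ) := by
    have h1 : ((F.image (fun x => (x.1, x.2.1))).card : ℝ) ≤
        (∑ t ∈ ((cop q ⌊2 * T⌋₊).filter (fun t => t ≠ 1)).filter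
          (fun t : ℕ => y < t ∧ (t : ℝ) ≤ y ^ 2), ((LRG_A ⌊2 * T⌋₊ t D D').card : ℝ)) +
        ∑ p ∈ Ioc ⌊y⌋₊ ⌊2 * T⌋₊, ((LRG_B ⌊2 * T⌋₊ p).card : ℝ) := by
      have h2 := (Finset.card_le_card hcov).trans (Finset.card_union_le _ _)
      have h3 := h2.trans (add_le_add Finset.card_biUnion_le Finset.card_biUnion_le)
      exact_mod_cast h3
    have h4 : 9 * T ^ 2 * ((T ^ (1 / 5000 : ℝ)) ^ (3 / 4 : ℝ) * (T ^ (1 / 5000 : ℝ)) ^ (3 / 4 : ℝ)) *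
        (1 / y ^ (1 / 10 : ℝ)) = 9 * T ^ (2 - 7 / 10000 : ℝ) := by
      have e3 : 1 / y ^ (1 / 10 : ℝ) = T ^ (-(1 / 1000) : ℝ) := by
        rw [hyd, ← Real.rpow_mul hT0.le, Real.rpow_neg hT0.le,
          ← one_div (T ^ (1 / 1000 : ℝ))]
        norm_num
      have e4 : (T ^ (1 / 5000 : ℝ)) ^ (3 / 4 : ℝ) * (T ^ (1 / 5000 : ℝ)) ^ (3 / 4 : ℝ) =
          T ^ (3 / 10000 : ℝ) := by
        rw [← Real.rpow_mul hT0.le, ← Real.rpow_add hT0]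
        norm_num
      have e5 : T ^ 2 = T ^ (2 : ℝ) := (Real.rpow_two T).symm
      have e6 : T ^ (2 - 7 / 10000 : ℝ) =
          T ^ (2 : ℝ) * T ^ (3 / 10000 : ℝ) * T ^ (-(1 / 1000) : ℝ) := by
        rw [← Real.rpow_add hT0, ← Real.rpow_add hT0]
        norm_num
      rw [e3, e4, e5, e6]
      ring
    have h5 : 8 * T ^ 2 / y ≤ 8 * T ^ (2 - 7 / 10000 : ℝ) := by
      rw [hyd, mul_div_assoc, ← Real.rpow_natCast T 2, ← Real.rpow_sub hT0]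
      apply mul_le_mul_of_nonneg_left _ (by norm_num)
      apply Real.rpow_le_rpow_of_exponent_le hT1
      norm_num
    linarith
  have hfib := LRG_fib q s₀ w₀ D D' T δ (1 / 100000) hT1 hδ hδ1 hw hD hD' hne (by norm_num) htau F
    hFsub
  have hcard : (F.card : ℝ) ≤ ((F.image (fun x => (x.1, x.2.1))).card : ℝ) *
      (4 * T ^ 2) ^ (1 / 100000 : ℝ) := by
    have h1 := Finset.card_eq_sum_card_image (fun x : ℕ × ℕ × ℕ => (x.1, x.2.1)) F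
    rw [h1]
    push_cast
    calc ∑ b ∈ F.image (fun x => (x.1, x.2.1)), ((F.filter (fun x => (x.1, x.2.1) = b)).card : ℝ)
        ≤ ∑ _b ∈ F.image (fun x => (x.1, x.2.1)), (4 * T ^ 2) ^ (1 / 100000 : ℝ) :=
          Finset.sum_le_sum (fun b _ => hfib b)
      _ = _ := by rw [Finset.sum_const, nsmul_eq_mul]
  have h4T : (4 * T ^ 2) ^ (1 / 100000 : ℝ) ≤ 2 * T ^ (2 / 100000 : ℝ) := by
    have h1 : 4 * T ^ 2 = (2 * T) ^ (2 : ℝ) := by
      rw [Real.rpow_two]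
      ring
    rw [h1, ← Real.rpow_mul (by positivity), Real.mul_rpow (by norm_num) hT0.le]
    have h2 : (2 : ℝ) ^ ((2 : ℝ) * (1 / 100000)) ≤ 2 := by
      calc (2 : ℝ) ^ ((2 : ℝ) * (1 / 100000)) ≤ (2 : ℝ) ^ (1 : ℝ) :=
            Real.rpow_le_rpow_of_exponent_le (by norm_num) (by norm_num)
        _ = 2 := Real.rpow_one 2
    have h3 : T ^ ((2 : ℝ) * (1 / 100000)) = T ^ (2 / 100000 : ℝ) := by norm_num
    rw [h3]
    exact mul_le_mul_of_nonneg_right h2 (by positivity)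
  calc (F.card : ℝ) ≤ ((F.image (fun x => (x.1, x.2.1))).card : ℝ) *
      (4 * T ^ 2) ^ (1 / 100000 : ℝ) := hcard
    _ ≤ (17 * T ^ (2 - 7 / 10000 : ℝ)) * (2 * T ^ (2 / 100000 : ℝ)) :=
        mul_le_mul hpairs h4T (by positivity) (by positivity)
    _ = 34 * T ^ (2 - 68 / 100000 : ℝ) := by
        have : T ^ (2 - 68 / 100000 : ℝ) = T ^ (2 - 7 / 10000 : ℝ) * T ^ (2 / 100000 : ℝ) := by
          rw [← Real.rpow_add hT0]
          norm_num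
        rw [this]
        ring
    _ ≤ T ^ (18 / 100000 : ℝ) * T ^ (2 - 68 / 100000 : ℝ) :=
        mul_le_mul_of_nonneg_right h34 (by positivity)
    _ = T ^ (2 - 1 / 2000 : ℝ) := by
        rw [← Real.rpow_add hT0]
        norm_num

end Pool.Agent.SU
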