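import Pool.Agent.helper40.SU.SpecA

set_option autoImplicit false

open Finset

namespace Pool.Agent.SU

theorem PER_shift (r : ℕ) (g : ℕ → ℤ) (hg : ∀ x x' : ℕ, x ≡ x' [MOD r] → g x = g x') (a : ℕ) :
    ∑ i ∈ Ico a (a + r), g i = ∑ i ∈ range r, g i := by
  induction a with
  | zero =>
    rw [zero_add, Finset.range_eq_Ico]
  | succ a ih =>
    rcases Nat.eq_zero_or_pos r with h0 | h0
    · subst h0
      simp
    · rw [← ih]
      have h1 : ∑ i ∈ Ico a (a + 1 + r), g i = g a + ∑ i ∈ Ico (a + 1) (a + 1 + r), g i :=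
        Finset.sum_eq_sum_Ico_succ_bot (by omega) g
      have h2 : ∑ i ∈ Ico a (a + r + 1), g i = ∑ i ∈ Ico a (a + r), g i + g (a + r) :=
        Finset.sum_Ico_succ_top (by omega) g
      have h3 : g (a + r) = g a := hg _ _ (by
        unfold Nat.ModEq
        rw [Nat.add_mod_right])
      have h4 : a + 1 + r = a + r + 1 := by ring
      rw [h4] at h1 ⊢
      rw [h2, h3] at h1
      linarith

theorem PER_bij (r c u : ℕ) (hr : 1 ≤ r) (hc : r.Coprime c) (g : ℕ → ℤ)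
    (hg : ∀ x x' : ℕ, x ≡ x' [MOD r] → g x = g x') :
    ∑ i ∈ range r, g (u + c * i) = ∑ x ∈ range r, g x := by
  have hmaps : Set.MapsTo (fun i => (u + c * i) % r) (range r : Finset ℕ) (range r : Finset ℕ) := by
    intro i _
    rw [Finset.mem_coe, Finset.mem_range]
    exact Nat.mod_lt _ hr
  have hinj : Set.InjOn (fun i => (u + c * i) % r) (range r : Finset ℕ) := by
    intro i hi i' hi' h
    rw [Finset.mem_coe, Finset.mem_range] at hi hi'
    have h1 : u + c * i ≡ u + c * i' [MOD r] := h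
    have h2 : c * i ≡ c * i' [MOD r] := Nat.ModEq.add_left_cancel' u h1
    have h3 : i ≡ i' [MOD r] := Nat.ModEq.cancel_left_of_coprime hc h2
    have h4 : i % r = i' % r := h3
    rwa [Nat.mod_eq_of_lt hi, Nat.mod_eq_of_lt hi'] at h4
  have hsurj := Finset.surjOn_of_injOn_of_card_le _ hmaps hinj le_rfl
  exact Finset.sum_nbij (fun i => (u + c * i) % r) hmaps hinj hsurj
    (fun i _ => hg _ _ (Nat.mod_modEq _ _).symm)

theorem PER_line (r c u n K : ℕ) (hr : 1 ≤ r) (hc : r.Coprime c) (g : ℕ → ℤ)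
    (hg : ∀ x x' : ℕ, x ≡ x' [MOD r] → g x = g x') :
    ∑ i ∈ Ico K (K + n * r), g (u + c * i) = n * ∑ x ∈ range r, g x := by
  induction n with
  | zero => simp
  | succ n ih =>
    have h1 : K + (n + 1) * r = (K + n * r) + r := by ring
    rw [h1, ← Finset.sum_Ico_consecutive _ (by omega : K ≤ K + n * r) (by omega), ih,
      PER_shift r (fun i => g (u + c * i)) (fun x x' h => hg _ _ ((h.mul_left c).add_left u)),
      PER_bij r c u hr hc g hg]
    push_cast
    ring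

theorem PER : PER_stmt := by
  intro q r K u₀ k₀ f hr hc hf1 hf
  have hc64 : r.Coprime (64 * q) := by
    have h2 : r.Coprime 2 := Nat.Coprime.coprime_dvd_right (dvd_mul_right 2 q) hc
    have hq : r.Coprime q := Nat.Coprime.coprime_dvd_right (dvd_mul_left q 2) hc
    have h64 : r.Coprime (2 ^ 6) := Nat.Coprime.pow_right 6 h2
    exact Nat.Coprime.mul_right h64 hq
  obtain ⟨n, hn⟩ : ∃ n : ℕ, n = K / r := ⟨_, rfl⟩
  have hdiv : n * r + K % r = K := by
    rw [hn, mul_comm]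
    exact Nat.div_add_mod K r
  have hmod : K % r < r := Nat.mod_lt K hr
  obtain ⟨S, hS⟩ : ∃ S : ℤ, S = ∑ x ∈ range r, ∑ y ∈ range r, f x y := ⟨_, rfl⟩
  have hsub : ∑ i ∈ Ico K (K + n * r), ∑ j ∈ Ico K (K + n * r),
      f (u₀ + 64 * q * i) (k₀ + 64 * q * j) = n * (n * S) := by
    have h1 : ∀ i, ∑ j ∈ Ico K (K + n * r), f (u₀ + 64 * q * i) (k₀ + 64 * q * j) =
        n * ∑ y ∈ range r, f (u₀ + 64 * q * i) y := fun i =>
      PER_line r (64 * q) k₀ n K hr hc64 (f (u₀ + 64 * q * i))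
        (fun x x' h => hf _ _ _ _ rfl h)
    rw [Finset.sum_congr rfl (fun i _ => h1 i)]
    have h2 := PER_line r (64 * q) u₀ n K hr hc64 (fun x => n * ∑ y ∈ range r, f x y)
      (fun x x' h => by
        have h3 : (∑ y ∈ range r, f x y) = ∑ y ∈ range r, f x' y :=
          Finset.sum_congr rfl (fun y _ => hf _ _ _ _ h rfl)
        rw [h3])
    rw [h2, ← Finset.mul_sum, hS]
  obtain ⟨T, hT⟩ : ∃ T : ℤ, T = ∑ i ∈ Ico K (2 * K), ∑ j ∈ Ico K (2 * K),
      f (u₀ + 64 * q * i) (k₀ + 64 * q * j) := ⟨_, rfl⟩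
  have hss : Ico K (K + n * r) ×ˢ Ico K (K + n * r) ⊆ Ico K (2 * K) ×ˢ Ico K (2 * K) := by
    apply Finset.product_subset_product <;> exact Finset.Ico_subset_Ico le_rfl (by omega)
  have hTS : T - n * (n * S) = ∑ x ∈ (Ico K (2 * K) ×ˢ Ico K (2 * K)) \
      (Ico K (K + n * r) ×ˢ Ico K (K + n * r)), f (u₀ + 64 * q * x.1) (k₀ + 64 * q * x.2) := by
    rw [hT, ← hsub, ← Finset.sum_product', ← Finset.sum_product', ← Finset.sum_sdiff hss]
    ring
  have hcard : ((((Ico K (2 * K) ×ˢ Ico K (2 * K)) \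
      (Ico K (K + n * r) ×ˢ Ico K (K + n * r))).card : ℕ) : ℤ) = K * K - (n * r) * (n * r) := by
    rw [Finset.card_sdiff_of_subset hss, Finset.card_product, Finset.card_product, Nat.card_Ico,
      Nat.card_Ico, show 2 * K - K = K by omega, show K + n * r - K = n * r by omega]
    have : n * r * (n * r) ≤ K * K := Nat.mul_le_mul (by omega) (by omega)
    push_cast [Nat.cast_sub this]
    ring
  have habs : |T - n * (n * S)| ≤ K * K - (n * r) * (n * r) := by
    rw [hTS, ← hcard]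
    calc |∑ x ∈ (Ico K (2 * K) ×ˢ Ico K (2 * K)) \
        (Ico K (K + n * r) ×ˢ Ico K (K + n * r)), f (u₀ + 64 * q * x.1) (k₀ + 64 * q * x.2)|
        ≤ ∑ x ∈ (Ico K (2 * K) ×ˢ Ico K (2 * K)) \
        (Ico K (K + n * r) ×ˢ Ico K (K + n * r)),
          |f (u₀ + 64 * q * x.1) (k₀ + 64 * q * x.2)| := Finset.abs_sum_le_sum_abs _ _
      _ ≤ ∑ _x ∈ (Ico K (2 * K) ×ˢ Ico K (2 * K)) \
        (Ico K (K + n * r) ×ˢ Ico K (K + n * r)), (1 : ℤ) :=
          Finset.sum_le_sum (fun x _ => hf1 _ _)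
      _ = _ := by rw [Finset.sum_const, nsmul_eq_mul, mul_one]
  have hfin : (K : ℤ) * K - (n * r) * (n * r) ≤ 2 * K * r := by
    have h1 : (K : ℤ) - n * r = ((K % r : ℕ) : ℤ) := by
      have : ((n * r + K % r : ℕ) : ℤ) = (K : ℤ) := by rw [hdiv]
      push_cast at this ⊢
      linarith
    have h2 : (K : ℤ) * K - (n * r) * (n * r) = ((K : ℤ) - n * r) * (K + n * r) := by ring
    have h3 : ((K % r : ℕ) : ℤ) ≤ r := by exact_mod_cast hmod.le
    have h4 : (K : ℤ) + n * r ≤ 2 * K := by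
      have : (0 : ℤ) ≤ ((K % r : ℕ) : ℤ) := by positivity
      linarith
    have h5 : (0 : ℤ) ≤ (K : ℤ) + n * r := by positivity
    rw [h2, h1]
    calc ((K % r : ℕ) : ℤ) * (K + n * r) ≤ r * (2 * K) :=
          mul_le_mul h3 h4 h5 (by positivity)
      _ = 2 * K * r := by ring
  have hreal : |((T : ℤ) : ℝ) - n * (n * (S : ℝ))| ≤ 2 * K * r := by
    have h := habs.trans hfin
    have h' : ((|T - n * (n * S)| : ℤ) : ℝ) ≤ ((2 * K * r : ℤ) : ℝ) := by exact_mod_cast h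
    push_cast at h'
    exact h'
  rw [← hT, ← hS]
  have hnK : (n : ℝ) ≤ (K : ℝ) / r := by
    rw [hn]
    exact Nat.cast_div_le
  have hn2 : (n : ℝ) * n ≤ ((K : ℝ) / r) ^ 2 := by
    rw [pow_two]
    exact mul_le_mul hnK hnK (Nat.cast_nonneg n) (by positivity)
  have hS2 : |(n : ℝ) * (n * (S : ℝ))| ≤ ((K : ℝ) / r) ^ 2 * |(S : ℝ)| := by
    rw [← mul_assoc, abs_mul, abs_of_nonneg (by positivity : (0 : ℝ) ≤ (n : ℝ) * n)]
    exact mul_le_mul_of_nonneg_right hn2 (abs_nonneg _)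
  calc |(T : ℝ)| = |(n : ℝ) * (n * (S : ℝ)) + ((T : ℝ) - n * (n * (S : ℝ)))| := by
        congr 1
        ring
    _ ≤ |(n : ℝ) * (n * (S : ℝ))| + |(T : ℝ) - n * (n * (S : ℝ))| := abs_add_le _ _
    _ ≤ _ := add_le_add hS2 hreal

end Pool.Agent.SU
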