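import Pool.Agent.helper40.SU.SpecA

set_option autoImplicit false

open Finset

namespace Pool.Agent.SU

theorem RTD_modEq (m a y : ℕ) : Df m 1 (y % a) ≡ Df m 1 y [MOD a] := by
  have h : y % a ≡ y [MOD a] := Nat.mod_modEq y a
  unfold Df
  apply Nat.ModEq.add_left
  apply Nat.ModEq.pow
  apply Nat.ModEq.mul h
  apply Nat.ModEq.add_left
  exact h.mul_left 420

theorem RTD_dvd (m a y : ℕ) : a ∣ Df m 1 (y % a) ↔ a ∣ Df m 1 y :=
  (RTD_modEq m a y).dvd_iff (dvd_refl a)

theorem RTD_mul (m a b : ℕ) (ha : 0 < a) (hb : 0 < b) (hab : a.Coprime b) :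
    rt m (a * b) ≤ rt m a * rt m b := by
  unfold rt
  rw [← Finset.card_product]
  apply Finset.card_le_card_of_injOn (fun y => (y % a, y % b))
  · intro y hy
    rw [Finset.mem_coe, Finset.mem_filter, Finset.mem_range] at hy
    rw [Finset.mem_coe, Finset.mem_product, Finset.mem_filter, Finset.mem_filter,
      Finset.mem_range, Finset.mem_range]
    refine ⟨⟨Nat.mod_lt _ ha, ?_⟩, ⟨Nat.mod_lt _ hb, ?_⟩⟩
    · exact (RTD_dvd m a y).mpr ((dvd_mul_right a b).trans hy.2)
    · exact (RTD_dvd m b y).mpr ((dvd_mul_left b a).trans hy.2)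
  · intro y hy y' hy' h
    rw [Finset.mem_coe, Finset.mem_filter, Finset.mem_range] at hy hy'
    simp only [Prod.mk.injEq] at h
    have h1 : y ≡ y' [MOD a * b] := (Nat.modEq_and_modEq_iff_modEq_mul hab).mp ⟨h.1, h.2⟩
    have h2 : y % (a * b) = y' % (a * b) := h1
    rwa [Nat.mod_eq_of_lt hy.1, Nat.mod_eq_of_lt hy'.1] at h2

theorem RTD (hRT1 : RT1_stmt) : RTD_stmt := by
  intro Z m q u₀ k₀ hZ hD d
  induction d using induction_on_primes with
  | zero =>
    intro h
    exact absurd h (by simp)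
  | one =>
    intro _ _
    have h1 : rt m 1 ≤ 1 := by
      unfold rt
      calc ((range 1).filter (fun y => 1 ∣ Df m 1 y)).card ≤ (range 1).card :=
            Finset.card_filter_le _ _
        _ = 1 := Finset.card_range 1
    have h2 : om 1 = 0 := by
      unfold om
      simp
    rw [h2, pow_zero]
    exact h1
  | prime_mul p a hp ih =>
    intro hs hc
    obtain ⟨hpa, -, hsa⟩ := Nat.squarefree_mul_iff.mp hs
    have ha0 : 0 < a := Nat.pos_of_ne_zero hsa.ne_zero
    have hca : a.Coprime (2 * q) := Nat.Coprime.coprime_dvd_left (dvd_mul_left a p) hc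
    have hcp : p.Coprime (2 * q) := Nat.Coprime.coprime_dvd_left (dvd_mul_right p a) hc
    have hnp : ¬ p ∣ 2 * q := (Nat.Prime.coprime_iff_not_dvd hp).mp hcp
    have h4 := (hRT1 Z m q u₀ k₀ hZ hD p hp hnp).1
    have hom : om (p * a) = 1 + om a := by
      unfold om
      rw [hpa.primeFactors_mul, Finset.card_union_of_disjoint hpa.disjoint_primeFactors,
        hp.primeFactors, Finset.card_singleton]
    rw [hom, pow_add, pow_one]
    calc rt m (p * a) ≤ rt m p * rt m a := RTD_mul m p a hp.pos ha0 hpa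
      _ ≤ 4 * 4 ^ om a := Nat.mul_le_mul h4 (ih hsa hca)

end Pool.Agent.SU
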